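import Pool.Agent.H8.VX.Fin
import Pool.Agent.H99.VY.Medy
import Pool.Agent.H99.VY.Smy

/-! # [H8 VY MAIN] THEOREM VY: `|F(x,y)| ≤ H` has at most `B^k (S^(1-1/(36n²)) + H^(2/n) (1 + log H))` integer solutions, `k = k(n)` -/

namespace Pool.Agent.H8.VY

open MvPolynomial Pool.Agent.H8.AA Pool.Agent.H8.VX

/-- all integer points with `|F| ≤ H`, `H² ≤ S^n` -/
theorem ptsy (n : ℕ) (hn : 4 ≤ n) : ∃ k : ℕ, ∀ B : ℕ, 2 ≤ B → ∀ e : ℕ → ℕ → ℤ, Ir n e →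
    (∀ a b, a + b = n → |e a b| ≤ (B : ℤ)) → ∀ S H : ℕ, 1 ≤ S → 1 ≤ H → H ^ 2 ≤ S ^ n →
    (∀ a b, a + b < n → |e a b| ≤ ((S : ℤ) ^ (n - (a + b)))) → ∀ T : Finset (ℤ × ℤ),
    (∀ P ∈ T, |ev n e P.1 P.2| ≤ (H : ℤ)) →
    (T.card : ℝ) ≤ (B : ℝ) ^ k * ((S : ℝ) ^ (1 - 1 / (36 * (n : ℝ) ^ 2)) + (H : ℝ) ^ (2 / (n : ℝ)) * (1 + Real.log H)) := by
  classical
  obtain ⟨k₁, hmed⟩ := Pool.Agent.H99.VY.medy n hn (2500 * n ^ 4)
  obtain ⟨k₂, hsm⟩ := Pool.Agent.H99.VY.smy n hn k₁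
  refine ⟨k₁ + k₂ + 360 * n ^ 4 + 2, ?_⟩
  intro B hB e hir htop S H hS hH hHS hlow T hT
  obtain ⟨h, hh⟩ : ∃ h : ℕ, h = B * S ^ n := ⟨_, rfl⟩
  have hSn1 : 1 ≤ S ^ n := Nat.one_le_pow _ _ hS
  have hh2 : 2 ≤ h := by
    rw [hh]
    nlinarith
  have hBh : B ≤ h := by
    rw [hh]
    nlinarith
  have hSh : S ^ n ≤ h := by
    rw [hh]
    nlinarith
  have hHh : H ≤ h := by
    have h1 : H ≤ H ^ 2 := Nat.le_self_pow (by norm_num) H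
    exact (h1.trans hHS).trans hSh
  have hht : ∀ i j, i + j ≤ n → |e i j| ≤ (h : ℤ) := by
    intro i j hij
    rcases Nat.lt_or_ge (i + j) n with h1 | h1
    · refine (hlow i j h1).trans ?_
      exact_mod_cast (Nat.pow_le_pow_right hS (by omega : n - (i + j) ≤ n)).trans hSh
    · refine (htop i j (le_antisymm hij h1)).trans ?_
      exact_mod_cast hBh
  have hn4 : (4 : ℝ) ≤ n := by exact_mod_cast hn
  have hn0 : (0 : ℝ) < n := by linarith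
  have hB2 : (2 : ℝ) ≤ B := by exact_mod_cast hB
  have hB1 : (1 : ℝ) ≤ B := by linarith
  have hS1 : (1 : ℝ) ≤ S := by exact_mod_cast hS
  have hH1 : (1 : ℝ) ≤ H := by exact_mod_cast hH
  have hlH := Real.log_nonneg hH1
  have hBk : (1 : ℝ) ≤ (B : ℝ) ^ k₁ := one_le_pow₀ hB1
  have hBk2 : (1 : ℝ) ≤ (B : ℝ) ^ k₂ := one_le_pow₀ hB1
  obtain ⟨Z, hZ⟩ : ∃ Z : ℝ, Z = (H : ℝ) ^ (2 / (n : ℝ)) * (1 + Real.log H) := ⟨_, rfl⟩
  have hZ0 : 0 ≤ Z := by rw [hZ]; positivity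
  obtain ⟨s, hs⟩ : ∃ s : ℝ, s = (S : ℝ) ^ (1 - 1 / (36 * (n : ℝ) ^ 2)) := ⟨_, rfl⟩
  have hs0 : 0 ≤ s := by rw [hs]; positivity
  set T0 := T.filter fun P => (h : ℤ) ^ (2500 * n ^ 4) < max |P.1| |P.2| with hT0
  set T3 := T.filter fun P => ¬ (h : ℤ) ^ (2500 * n ^ 4) < max |P.1| |P.2| with hT3
  set T1 := T3.filter fun P => (B : ℝ) ^ k₁ * S ≤ (max |P.1| |P.2| : ℤ) with hT1
  set T2 := T3.filter fun P => ¬ (B : ℝ) ^ k₁ * S ≤ (max |P.1| |P.2| : ℤ) with hT2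
  set T4 := T2.filter fun P => |P.2| ≤ |P.1| with hT4
  set T5 := T2.filter fun P => ¬ |P.2| ≤ |P.1| with hT5
  have h0 : (T0.card : ℝ) ≤ (B : ℝ) ^ (360 * n ^ 4) * Z := by
    have h1 := farx hn hh2 hH hHh e hht hir T0 (by
      intro P hP
      rw [hT0, Finset.mem_filter] at hP
      exact ⟨hP.2, hT P hP.1⟩)
    refine h1.trans ?_
    have h2 : ((360 * n ^ 4 : ℕ) : ℝ) ≤ (B : ℝ) ^ (360 * n ^ 4) := by
      have h3 : (360 * n ^ 4 : ℕ) < 2 ^ (360 * n ^ 4) := Nat.lt_two_pow_self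
      calc ((360 * n ^ 4 : ℕ) : ℝ) ≤ ((2 ^ (360 * n ^ 4) : ℕ) : ℝ) := by exact_mod_cast h3.le
        _ = (2 : ℝ) ^ (360 * n ^ 4) := by rw [Nat.cast_pow, Nat.cast_ofNat]
        _ ≤ _ := pow_le_pow_left₀ (by norm_num) hB2 _
    have h4 : (H : ℝ) ^ (1 / (n : ℝ)) ≤ Z := by
      rw [hZ]
      have h5 : (H : ℝ) ^ (1 / (n : ℝ)) ≤ (H : ℝ) ^ (2 / (n : ℝ)) :=
        Real.rpow_le_rpow_of_exponent_le hH1 (div_le_div_of_nonneg_right (by norm_num) hn0.le)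
      exact h5.trans (le_mul_of_one_le_right (by positivity) (by linarith))
    push_cast at h2
    exact mul_le_mul h2 h4 (by positivity) (by positivity)
  have h1 : (T1.card : ℝ) ≤ (B : ℝ) ^ k₁ * s := by
    rw [hs]
    refine hmed B hB e hir htop S H hS hH hHS hlow T1 ?_
    intro P hP
    rw [hT1, Finset.mem_filter, hT3, Finset.mem_filter] at hP
    refine ⟨hT P hP.1.1, hP.2, ?_⟩
    have h2 := not_lt.1 hP.1.2
    rw [hh] at h2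
    push_cast at h2
    exact h2
  have hbox : ∀ P ∈ T2, |ev n e P.1 P.2| ≤ (H : ℤ) ∧ |P.1| ≤ (B : ℤ) ^ k₁ * S ∧ |P.2| ≤ (B : ℤ) ^ k₁ * S := by
    intro P hP
    rw [hT2, Finset.mem_filter, hT3, Finset.mem_filter] at hP
    have h3 := hP.2
    push Not at h3
    have h4 : ((max |P.1| |P.2| : ℤ) : ℝ) < (((B : ℤ) ^ k₁ * S : ℤ) : ℝ) := by
      push_cast
      push_cast at h3
      exact h3
    have h5 : max |P.1| |P.2| < (B : ℤ) ^ k₁ * S := by exact_mod_cast h4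
    exact ⟨hT P hP.1.1, ((le_max_left _ _).trans h5.le), ((le_max_right _ _).trans h5.le)⟩
  have h4 : (T4.card : ℝ) ≤ (B : ℝ) ^ k₂ * (s + Z) := by
    rw [hs, hZ]
    refine hsm B hB e hir htop S H hS hH hHS hlow T4 ?_
    intro P hP
    rw [hT4, Finset.mem_filter] at hP
    obtain ⟨q1, q2, q3⟩ := hbox P hP.1
    exact ⟨q1, hP.2, q2⟩
  have h5 : (T5.card : ℝ) ≤ (B : ℝ) ^ k₂ * (s + Z) := by
    rw [hs, hZ, ← Finset.card_image_of_injective T5 Prod.swap_injective]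
    refine hsm B hB (sw e) (ir_sw n (by omega) e hir) (fun a b hab => htop b a (by omega)) S H hS hH hHS
      (fun a b hab => by
        have := hlow b a (by omega)
        rwa [add_comm b a] at this) (T5.image Prod.swap) ?_
    intro Q hQ
    obtain ⟨P, hP, rfl⟩ := Finset.mem_image.1 hQ
    rw [hT5, Finset.mem_filter] at hP
    obtain ⟨q1, q2, q3⟩ := hbox P hP.1
    refine ⟨?_, ?_, q3⟩
    · show |ev n (sw e) P.2 P.1| ≤ (H : ℤ)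
      rw [ev_sw]
      exact q1
    · show |P.1| ≤ |P.2|
      exact (not_le.1 hP.2).le
  have h3 : T.card = T0.card + (T1.card + (T4.card + T5.card)) := by
    rw [hT4, hT5, Finset.card_filter_add_card_filter_not, hT1, hT2, Finset.card_filter_add_card_filter_not, hT0, hT3,
      Finset.card_filter_add_card_filter_not]
  rw [h3, ← hZ, ← hs]
  push_cast
  obtain ⟨b₁, hb₁⟩ : ∃ b₁ : ℝ, b₁ = (B : ℝ) ^ k₁ := ⟨_, rfl⟩
  obtain ⟨b₂, hb₂⟩ : ∃ b₂ : ℝ, b₂ = (B : ℝ) ^ k₂ := ⟨_, rfl⟩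
  obtain ⟨b₃, hb₃⟩ : ∃ b₃ : ℝ, b₃ = (B : ℝ) ^ (360 * n ^ 4) := ⟨_, rfl⟩
  have hBk3 : (1 : ℝ) ≤ (B : ℝ) ^ (360 * n ^ 4) := one_le_pow₀ hB1
  have hpow : (B : ℝ) ^ (k₁ + k₂ + 360 * n ^ 4 + 2) = b₁ * b₂ * b₃ * (B : ℝ) ^ 2 := by
    rw [hb₁, hb₂, hb₃, ← pow_add, ← pow_add, ← pow_add]
  rw [hpow]
  rw [← hb₁] at h1 hBk
  rw [← hb₂] at h4 h5 hBk2
  rw [← hb₃] at h0 hBk3
  obtain ⟨Y, hY⟩ : ∃ Y : ℝ, Y = s + Z := ⟨_, rfl⟩
  have hY0 : 0 ≤ Y := by rw [hY]; linarith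
  have hSY : s ≤ Y := by rw [hY]; linarith
  have hZY : Z ≤ Y := by rw [hY]; linarith
  rw [← hY] at h4 h5 ⊢
  have h12 : (1 : ℝ) ≤ b₁ * b₂ := one_le_mul_of_one_le_of_one_le hBk hBk2
  have h123 : b₁ * b₂ ≤ b₁ * b₂ * b₃ := le_mul_of_one_le_right (by linarith) hBk3
  have e0 : b₃ * Z ≤ b₁ * b₂ * b₃ * Y := by
    have : b₃ ≤ b₁ * b₂ * b₃ := by nlinarith
    exact mul_le_mul this hZY hZ0 (by nlinarith)
  have e1 : b₁ * s ≤ b₁ * b₂ * b₃ * Y := by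
    have : b₁ ≤ b₁ * b₂ := le_mul_of_one_le_right (by linarith) hBk2
    exact mul_le_mul (this.trans h123) hSY hs0 (by nlinarith)
  have e2 : b₂ * Y ≤ b₁ * b₂ * b₃ * Y := by
    have : b₂ ≤ b₁ * b₂ := le_mul_of_one_le_left (by linarith) hBk
    exact mul_le_mul_of_nonneg_right (this.trans h123) hY0
  have e3 : 4 * (b₁ * b₂ * b₃ * Y) ≤ b₁ * b₂ * b₃ * (B : ℝ) ^ 2 * Y := by
    have h8 : (4 : ℝ) ≤ (B : ℝ) ^ 2 := by nlinarith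
    have h9 : 0 ≤ b₁ * b₂ * b₃ * Y := by
      have : 0 ≤ b₁ * b₂ * b₃ := by nlinarith
      positivity
    nlinarith
  linarith

/-- THEOREM VY -/
theorem mainy (n : ℕ) (hn : 4 ≤ n) : ∃ k : ℕ, ∀ B S H : ℕ, 2 ≤ B → 1 ≤ S → 1 ≤ H →
    ∀ F : MvPolynomial (Fin 2) ℤ, F.totalDegree ≤ n →
    Irreducible (map (Int.castRingHom ℚ) (homogeneousComponent n F)) →
    (∀ m : Fin 2 →₀ ℕ, m.degree = n → |F.coeff m| ≤ (B : ℤ)) →
    (∀ m : Fin 2 →₀ ℕ, m.degree < n → |F.coeff m| ≤ (S : ℤ) ^ (n - m.degree)) →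
    {P : Fin 2 → ℤ | |eval P F| ≤ (H : ℤ)}.Finite ∧
    (({P : Fin 2 → ℤ | |eval P F| ≤ (H : ℤ)}.ncard : ℕ) : ℝ) ≤
      (B : ℝ) ^ k * ((S : ℝ) ^ (1 - 1 / (36 * (n : ℝ) ^ 2)) + (H : ℝ) ^ (2 / (n : ℝ)) * (1 + Real.log H)) := by
  classical
  obtain ⟨k, hk⟩ := ptsy n hn
  obtain ⟨k', hk'⟩ := mainx n hn
  refine ⟨k + k' + 1, ?_⟩
  intro B S H hB hS hH F hF hirr hFB hFb
  obtain ⟨hfin, hx⟩ := hk' B S H hB hS hH F hF hirr hFB hFb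
  refine ⟨hfin, ?_⟩
  have hn4 : (4 : ℝ) ≤ n := by exact_mod_cast hn
  have hn0 : (0 : ℝ) < n := by linarith
  have hB2 : (2 : ℝ) ≤ B := by exact_mod_cast hB
  have hB1 : (1 : ℝ) ≤ B := by linarith
  have hH1 : (1 : ℝ) ≤ H := by exact_mod_cast hH
  have hlH := Real.log_nonneg hH1
  have hS0 : (0 : ℝ) ≤ S := Nat.cast_nonneg S
  obtain ⟨Z, hZ⟩ : ∃ Z : ℝ, Z = (H : ℝ) ^ (2 / (n : ℝ)) * (1 + Real.log H) := ⟨_, rfl⟩
  have hZ0 : 0 ≤ Z := by rw [hZ]; positivity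
  obtain ⟨s, hs⟩ : ∃ s : ℝ, s = (S : ℝ) ^ (1 - 1 / (36 * (n : ℝ) ^ 2)) := ⟨_, rfl⟩
  have hs0 : 0 ≤ s := by rw [hs]; positivity
  by_cases hHS : H ^ 2 ≤ S ^ n
  · have hir := ir_ar (by omega) hirr
    have htop : ∀ a b, a + b = n → |ar F a b| ≤ (B : ℤ) := fun a b hab => hFB _ (by rw [deg_ab]; exact hab)
    have hlow : ∀ a b, a + b < n → |ar F a b| ≤ ((S : ℤ) ^ (n - (a + b))) := by
      intro a b hab
      have h2 := hFb (Finsupp.single 0 a + Finsupp.single 1 b) (by rw [deg_ab]; exact hab)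
      rwa [deg_ab] at h2
    have hinj : Function.Injective (fun P : Fin 2 → ℤ => (P 0, P 1)) := by
      intro P Q hPQ
      simp only [Prod.mk.injEq] at hPQ
      funext i
      fin_cases i
      · exact hPQ.1
      · exact hPQ.2
    rw [Set.ncard_eq_toFinset_card _ hfin, ← Finset.card_image_of_injective _ hinj]
    have h1 := hk B hB (ar F) hir htop S H hS hH hHS hlow (hfin.toFinset.image fun P : Fin 2 → ℤ => (P 0, P 1)) (by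
      intro Q hQ
      obtain ⟨P, hP, rfl⟩ := Finset.mem_image.1 hQ
      show |ev n (ar F) (P 0) (P 1)| ≤ (H : ℤ)
      rw [ev_ar hF]
      exact (Set.Finite.mem_toFinset hfin).1 hP)
    rw [← hZ, ← hs] at h1 ⊢
    refine h1.trans (mul_le_mul_of_nonneg_right (pow_le_pow_right₀ hB1 (by omega)) (by linarith))
  · rw [← hZ] at hx
    rw [← hZ, ← hs]
    have h2 : (S : ℝ) ≤ Z := by
      have h3 : S ^ n ≤ H ^ 2 := by omega
      have h4 : (S : ℝ) ^ n ≤ (H : ℝ) ^ 2 := by exact_mod_cast h3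
      have h5 : (S : ℝ) ≤ (H : ℝ) ^ (2 / (n : ℝ)) := by
        have h6 : (S : ℝ) = ((S : ℝ) ^ n) ^ (1 / (n : ℝ)) := by
          rw [← Real.rpow_natCast, ← Real.rpow_mul hS0, mul_one_div_cancel hn0.ne', Real.rpow_one]
        rw [h6]
        refine (Real.rpow_le_rpow (by positivity) h4 (by positivity)).trans (le_of_eq ?_)
        rw [← Real.rpow_natCast, ← Real.rpow_mul (by linarith)]
        congr 1
        push_cast
        ring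
      rw [hZ]
      exact h5.trans (le_mul_of_one_le_right (by positivity) (by linarith))
    have h7 : (S : ℝ) + Z ≤ 2 * (s + Z) := by linarith
    have h8 : (B : ℝ) ^ k' * 2 ≤ (B : ℝ) ^ (k + k' + 1) := by
      have h9 : (B : ℝ) ^ k' * 2 ≤ (B : ℝ) ^ k' * B := mul_le_mul_of_nonneg_left hB2 (by positivity)
      have h10 : (B : ℝ) ^ k' * B = (B : ℝ) ^ (k' + 1) := (pow_succ _ _).symm
      rw [h10] at h9
      exact h9.trans (pow_le_pow_right₀ hB1 (by omega))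
    calc _ ≤ (B : ℝ) ^ k' * (S + Z) := hx
      _ ≤ (B : ℝ) ^ k' * (2 * (s + Z)) := mul_le_mul_of_nonneg_left h7 (by positivity)
      _ = (B : ℝ) ^ k' * 2 * (s + Z) := by ring
      _ ≤ _ := mul_le_mul_of_nonneg_right h8 (by linarith)

/-- THEOREM VY, full statement -/
theorem fin (n : ℕ) (hn : 4 ≤ n) : ∃ K : ℕ, ∀ B S H : ℕ, 2 ≤ B → 1 ≤ S → 1 ≤ H →
    ∀ F : MvPolynomial (Fin 2) ℤ, F.totalDegree ≤ n →
    Irreducible (map (Int.castRingHom ℚ) (homogeneousComponent n F)) →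
    (∀ m : Fin 2 →₀ ℕ, m.degree = n → |F.coeff m| ≤ (B : ℤ)) →
    (∀ m : Fin 2 →₀ ℕ, m.degree < n → |F.coeff m| ≤ (S : ℤ) ^ (n - m.degree)) →
    {P : Fin 2 → ℤ | |eval P F| ≤ (H : ℤ)}.Finite ∧
    (({P : Fin 2 → ℤ | |eval P F| ≤ (H : ℤ)}.ncard : ℕ) : ℝ) ≤
      (B : ℝ) ^ K * ((S : ℝ) ^ (1 - 1 / (36 * (n : ℝ) ^ 2)) + (H : ℝ) ^ (2 / (n : ℝ)) * (1 + Real.log H)) ∧
    (({c : ℤ | |c| ≤ (H : ℤ) ∧ ∃ P : Fin 2 → ℤ, eval P (F + C c) = 0}.ncard : ℕ) : ℝ) ≤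
      (B : ℝ) ^ K * ((S : ℝ) ^ (1 - 1 / (36 * (n : ℝ) ^ 2)) + (H : ℝ) ^ (2 / (n : ℝ)) * (1 + Real.log H)) ∧
    ∀ M : ℝ, (M = 360 * n ^ 4 * (H : ℝ) ^ (1 / (n : ℝ)) ∨ M = 80 * n ^ 3 ∧ ∀ t b : ℝ,
      n - 2 ≤ (aeval ![Polynomial.X, Polynomial.C t * Polynomial.X + Polynomial.C b] F : Polynomial ℝ).natDegree) →
    (({P : Fin 2 → ℤ | |eval P F| ≤ (H : ℤ) ∧
      ((B : ℤ) * S ^ n * H) ^ (700 * n ^ 5) < max |P 0| |P 1|}.ncard : ℕ) : ℝ) ≤ M ∧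
    (({c : ℤ | |c| ≤ (H : ℤ) ∧ ∃ P : Fin 2 → ℤ, eval P (F + C c) = 0 ∧
      ((B : ℤ) * S ^ n * H) ^ (700 * n ^ 5) < max |P 0| |P 1|}.ncard : ℕ) : ℝ) ≤ M := by
  obtain ⟨K, hK⟩ := mainy n hn
  refine ⟨K, ?_⟩
  intro B S H hB hS hH F hF hirr hFB hFb
  obtain ⟨h1, h2⟩ := hK B S H hB hS hH F hF hirr hFB hFb
  refine ⟨h1, h2, ?_, ?_⟩
  · have h4 := curves F H (fun _ => True) h1
    simp only [and_true] at h4
    exact le_trans (by exact_mod_cast h4) h2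
  · intro M hM
    have h3 : (({P : Fin 2 → ℤ | |eval P F| ≤ (H : ℤ) ∧
      ((B : ℤ) * S ^ n * H) ^ (700 * n ^ 5) < max |P 0| |P 1|}.ncard : ℕ) : ℝ) ≤ M := by
      rcases hM with rfl | ⟨rfl, hflex⟩
      · exact farF n hn B S H hB hS hH F hF hirr hFB hFb h1
      · exact farG n hn B S H hB hS hH F hF hirr hflex hFB hFb h1
    have h4 := curves F H (fun P => ((B : ℤ) * S ^ n * H) ^ (700 * n ^ 5) < max |P 0| |P 1|) h1
    exact ⟨h3, le_trans (by exact_mod_cast h4) h3⟩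

end Pool.Agent.H8.VY
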