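import Pool.Agent.H8.VY.Main

/-! # [H8 VY MAINE] THEOREM VY with the explicit exponent `3000 n^4` (helper6; copy of `VX/Main`, `VY/Main` with the exponents written out) -/

namespace Pool.Agent.H8.VY

open MvPolynomial Pool.Agent.H8.AA Pool.Agent.H8.VX

/-- `360 n⁴ ≤ B^(4 n + 9)` -/
theorem c360 (n : ℕ) (B : ℝ) (hB : 2 ≤ B) : ((360 * n ^ 4 : ℕ) : ℝ) ≤ B ^ (4 * n + 9) := by
  have h1 : (n : ℝ) ≤ B ^ n := by
    have h2 : (n : ℝ) ≤ (2 : ℝ) ^ n := by exact_mod_cast (Nat.lt_two_pow_self (n := n)).le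
    exact h2.trans (pow_le_pow_left₀ (by norm_num) hB n)
  have h3 : (360 : ℝ) ≤ B ^ 9 := by
    have h4 : (2 : ℝ) ^ 9 ≤ B ^ 9 := pow_le_pow_left₀ (by norm_num) hB 9
    norm_num at h4
    linarith
  push_cast
  calc (360 : ℝ) * (n : ℝ) ^ 4 ≤ B ^ 9 * (B ^ n) ^ 4 := by gcongr
    _ = B ^ (4 * n + 9) := by
        rw [← pow_mul, ← pow_add]
        congr 1
        ring

/-- all integer points with `|F| ≤ H` -/
theorem ptsxe (n : ℕ) (hn : 4 ≤ n) (k : ℕ) (hk : 2500 * n ^ 4 + 51 * n ^ 2 + 2 ≤ k) : ∀ B : ℕ, 2 ≤ B → ∀ e : ℕ → ℕ → ℤ, Ir n e →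
    (∀ a b, a + b = n → |e a b| ≤ (B : ℤ)) → ∀ S H : ℕ, 1 ≤ S → 1 ≤ H → H ^ 2 ≤ S ^ n → H ≤ S ^ (n - 1) →
    (∀ a b, a + b < n → |e a b| ≤ ((S : ℤ) ^ (n - (a + b)))) → ∀ T : Finset (ℤ × ℤ),
    (∀ P ∈ T, |ev n e P.1 P.2| ≤ (H : ℤ)) →
    (T.card : ℝ) ≤ (B : ℝ) ^ k * (S + (H : ℝ) ^ (2 / (n : ℝ)) * (1 + Real.log H)) := by
  classical
  have hmed := Pool.Agent.H99.VX.medxe n hn (2500 * n ^ 4)
  have hsm := Pool.Agent.H99.VX.smxe n (by omega)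
  obtain ⟨k₁, hk₁⟩ : ∃ k₁ : ℕ, k₁ = 41 * n ^ 2 + 2500 * n ^ 4 := ⟨_, rfl⟩
  obtain ⟨k₂, hk₂⟩ : ∃ k₂ : ℕ, k₂ = 10 * n ^ 2 := ⟨_, rfl⟩
  rw [← hk₁] at hmed
  rw [← hk₂] at hsm
  have hkk : k₁ + k₂ + 2 ≤ k := by omega
  have hk3 : 4 * n + 9 + 2 ≤ k := by
    have : 4 * n + 9 ≤ 51 * n ^ 2 := by nlinarith
    omega
  intro B hB e hir htop S H hS hH hHS hHS' hlow T hT
  obtain ⟨h, hh⟩ : ∃ h : ℕ, h = B * S ^ n := ⟨_, rfl⟩
  have hSn1 : 1 ≤ S ^ n := Nat.one_le_pow _ _ hS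
  have hh2 : 2 ≤ h := by
    rw [hh]
    nlinarith
  have hBh : B ≤ h := by
    rw [hh]
    nlinarith
  have hSh : S ^ n ≤ h := by
    rw [hh]
    nlinarith
  have hHh : H ≤ h := (hHS'.trans (Nat.pow_le_pow_right hS (by omega))).trans hSh
  have hht : ∀ i j, i + j ≤ n → |e i j| ≤ (h : ℤ) := by
    intro i j hij
    rcases Nat.lt_or_ge (i + j) n with h1 | h1
    · refine (hlow i j h1).trans ?_
      exact_mod_cast (Nat.pow_le_pow_right hS (by omega : n - (i + j) ≤ n)).trans hSh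
    · refine (htop i j (le_antisymm hij h1)).trans ?_
      exact_mod_cast hBh
  have hn4 : (4 : ℝ) ≤ n := by exact_mod_cast hn
  have hn0 : (0 : ℝ) < n := by linarith
  have hB2 : (2 : ℝ) ≤ B := by exact_mod_cast hB
  have hB1 : (1 : ℝ) ≤ B := by linarith
  have hS1 : (1 : ℝ) ≤ S := by exact_mod_cast hS
  have hH1 : (1 : ℝ) ≤ H := by exact_mod_cast hH
  have hlH := Real.log_nonneg hH1
  have hBk : (1 : ℝ) ≤ (B : ℝ) ^ k₁ := one_le_pow₀ hB1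
  have hBk2 : (1 : ℝ) ≤ (B : ℝ) ^ k₂ := one_le_pow₀ hB1
  have hKS : 1 ≤ (B : ℝ) ^ k₁ * S := by nlinarith
  obtain ⟨Z, hZ⟩ : ∃ Z : ℝ, Z = (H : ℝ) ^ (2 / (n : ℝ)) * (1 + Real.log H) := ⟨_, rfl⟩
  have hZ0 : 0 ≤ Z := by rw [hZ]; positivity
  set T0 := T.filter fun P => (h : ℤ) ^ (2500 * n ^ 4) < max |P.1| |P.2| with hT0
  set T3 := T.filter fun P => ¬ (h : ℤ) ^ (2500 * n ^ 4) < max |P.1| |P.2| with hT3
  set T1 := T3.filter fun P => (B : ℝ) ^ k₁ * S ≤ (max |P.1| |P.2| : ℤ) with hT1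
  set T2 := T3.filter fun P => ¬ (B : ℝ) ^ k₁ * S ≤ (max |P.1| |P.2| : ℤ) with hT2
  have h0 : (T0.card : ℝ) ≤ (B : ℝ) ^ (4 * n + 9) * Z := by
    have h1 := farx hn hh2 hH hHh e hht hir T0 (by
      intro P hP
      rw [hT0, Finset.mem_filter] at hP
      exact ⟨hP.2, hT P hP.1⟩)
    refine h1.trans ?_
    have h2 := c360 n B hB2
    have h4 : (H : ℝ) ^ (1 / (n : ℝ)) ≤ Z := by
      rw [hZ]
      have h5 : (H : ℝ) ^ (1 / (n : ℝ)) ≤ (H : ℝ) ^ (2 / (n : ℝ)) :=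
        Real.rpow_le_rpow_of_exponent_le hH1 (div_le_div_of_nonneg_right (by norm_num) hn0.le)
      exact h5.trans (le_mul_of_one_le_right (by positivity) (by linarith))
    push_cast at h2
    exact mul_le_mul h2 h4 (by positivity) (by positivity)
  have h1 : (T1.card : ℝ) ≤ (B : ℝ) ^ k₁ * S := by
    refine hmed B hB e hir htop S H hS hH hHS hlow T1 ?_
    intro P hP
    rw [hT1, Finset.mem_filter, hT3, Finset.mem_filter] at hP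
    refine ⟨hT P hP.1.1, hP.2, ?_⟩
    have h2 := not_lt.1 hP.1.2
    rw [hh] at h2
    push_cast at h2
    exact h2
  have h2 : (T2.card : ℝ) ≤ (B : ℝ) ^ k₂ * ((B : ℝ) ^ k₁ * S + Z) := by
    rw [hZ]
    refine hsm B hB e hir (htop 0 n (by omega)) ((B : ℝ) ^ k₁ * S) H hKS hH1 T2 ?_
    intro P hP
    rw [hT2, Finset.mem_filter, hT3, Finset.mem_filter] at hP
    refine ⟨by exact_mod_cast (hT P hP.1.1), ?_⟩
    have h3 := hP.2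
    push Not at h3
    have h5 : (|P.1| : ℤ) ≤ max |P.1| |P.2| := le_max_left _ _
    have h6 : ((|P.1| : ℤ) : ℝ) ≤ ((max |P.1| |P.2| : ℤ) : ℝ) := by exact_mod_cast h5
    push_cast at h6 h3
    linarith
  have h3 : T.card = T0.card + (T1.card + T2.card) := by
    rw [hT1, hT2, Finset.card_filter_add_card_filter_not, hT0, hT3, Finset.card_filter_add_card_filter_not]
  rw [h3, ← hZ]
  push_cast
  obtain ⟨b, hb⟩ : ∃ b : ℝ, b = (B : ℝ) ^ (k - 2) := ⟨_, rfl⟩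
  have hb0 : 0 ≤ b := by rw [hb]; positivity
  have hkb : (B : ℝ) ^ k = b * (B : ℝ) ^ 2 := by
    rw [hb, ← pow_add]
    congr 1
    omega
  have q1 : (B : ℝ) ^ k₁ ≤ b := by rw [hb]; exact pow_le_pow_right₀ hB1 (by omega)
  have q2 : (B : ℝ) ^ k₂ ≤ b := by rw [hb]; exact pow_le_pow_right₀ hB1 (by omega)
  have q12 : (B : ℝ) ^ k₂ * (B : ℝ) ^ k₁ ≤ b := by
    rw [hb, ← pow_add]
    exact pow_le_pow_right₀ hB1 (by omega)
  have q3 : (B : ℝ) ^ (4 * n + 9) ≤ b := by rw [hb]; exact pow_le_pow_right₀ hB1 (by omega)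
  have hS0 : (0 : ℝ) ≤ S := by linarith
  have e0 : (T0.card : ℝ) ≤ b * Z := h0.trans (mul_le_mul_of_nonneg_right q3 hZ0)
  have e1 : (T1.card : ℝ) ≤ b * S := h1.trans (mul_le_mul_of_nonneg_right q1 hS0)
  have e2 : (T2.card : ℝ) ≤ b * S + b * Z := by
    refine h2.trans ?_
    rw [mul_add, ← mul_assoc]
    exact add_le_add (mul_le_mul_of_nonneg_right q12 hS0) (mul_le_mul_of_nonneg_right q2 hZ0)
  rw [hkb]
  have h8 : (4 : ℝ) ≤ (B : ℝ) ^ 2 := by nlinarith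
  have h9 : b * 4 ≤ b * (B : ℝ) ^ 2 := mul_le_mul_of_nonneg_left h8 hb0
  have h10 : b * 4 * (S + Z) ≤ b * (B : ℝ) ^ 2 * (S + Z) := mul_le_mul_of_nonneg_right h9 (by linarith)
  have h11 : 0 ≤ b * S := mul_nonneg hb0 hS0
  have h12 : 0 ≤ b * Z := mul_nonneg hb0 hZ0
  linarith

/-- THEOREM VX, explicit -/
theorem mainxe (n : ℕ) (hn : 4 ≤ n) (l : ℕ) (hl : 2500 * n ^ 4 + 51 * n ^ 2 + 4 ≤ l) : ∀ B S H : ℕ, 2 ≤ B → 1 ≤ S → 1 ≤ H →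
    ∀ F : MvPolynomial (Fin 2) ℤ, F.totalDegree ≤ n →
    Irreducible (map (Int.castRingHom ℚ) (homogeneousComponent n F)) →
    (∀ m : Fin 2 →₀ ℕ, m.degree = n → |F.coeff m| ≤ (B : ℤ)) →
    (∀ m : Fin 2 →₀ ℕ, m.degree < n → |F.coeff m| ≤ (S : ℤ) ^ (n - m.degree)) →
    {P : Fin 2 → ℤ | |eval P F| ≤ (H : ℤ)}.Finite ∧
    (({P : Fin 2 → ℤ | |eval P F| ≤ (H : ℤ)}.ncard : ℕ) : ℝ) ≤
      (B : ℝ) ^ l * (S + (H : ℝ) ^ (2 / (n : ℝ)) * (1 + Real.log H)) := by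
  classical
  obtain ⟨k, rfl⟩ : ∃ k, l = k + 2 := ⟨l - 2, by omega⟩
  have hk := ptsxe n hn k (by omega)
  intro B S H hB hS hH F hF hirr hFB hFb
  obtain ⟨S', hSS', hHS2, hHS', h1⟩ := numx n hn S H hS hH
  have hir := ir_ar (by omega) hirr
  have htop : ∀ a b, a + b = n → |ar F a b| ≤ (B : ℤ) := fun a b hab => hFB _ (by rw [deg_ab]; exact hab)
  have hlow : ∀ a b, a + b < n → |ar F a b| ≤ ((S' : ℤ) ^ (n - (a + b))) := by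
    intro a b hab
    have h2 := hFb (Finsupp.single 0 a + Finsupp.single 1 b) (by rw [deg_ab]; exact hab)
    rw [deg_ab] at h2
    refine h2.trans ?_
    exact_mod_cast Nat.pow_le_pow_left hSS' _
  have hB2 : (2 : ℝ) ≤ B := by exact_mod_cast hB
  have hH1 : (1 : ℝ) ≤ H := by exact_mod_cast hH
  have hlH := Real.log_nonneg hH1
  have hS0 : (0 : ℝ) ≤ S := Nat.cast_nonneg S
  obtain ⟨b, hb⟩ : ∃ b : ℝ, b = (H : ℝ) ^ (2 / (n : ℝ)) := ⟨_, rfl⟩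
  have hb1 : 1 ≤ b := by rw [hb]; exact Real.one_le_rpow hH1 (by positivity)
  rw [← hb] at h1
  have h4 : b ≤ b * (1 + Real.log H) := le_mul_of_one_le_right (by linarith) (by linarith)
  have hbound : ∀ T : Finset (ℤ × ℤ), (∀ P ∈ T, |ev n (ar F) P.1 P.2| ≤ (H : ℤ)) →
      (T.card : ℝ) ≤ (B : ℝ) ^ (k + 2) * (S + b * (1 + Real.log H)) := by
    intro T hT
    have h5 := hk B hB (ar F) hir htop S' H (hS.trans hSS') hH hHS2 hHS' hlow T hT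
    rw [← hb] at h5
    refine h5.trans ?_
    have h6 : (S' : ℝ) + b * (1 + Real.log H) ≤ 3 * (S + b * (1 + Real.log H)) := by linarith
    have h7 : (4 : ℝ) ≤ (B : ℝ) ^ 2 := by nlinarith
    have h8 : 0 ≤ (S : ℝ) + b * (1 + Real.log H) := by positivity
    calc (B : ℝ) ^ k * (S' + b * (1 + Real.log H)) ≤ (B : ℝ) ^ k * (3 * (S + b * (1 + Real.log H))) :=
          mul_le_mul_of_nonneg_left h6 (by positivity)
      _ ≤ (B : ℝ) ^ k * ((B : ℝ) ^ 2 * (S + b * (1 + Real.log H))) :=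
          mul_le_mul_of_nonneg_left (by nlinarith) (by positivity)
      _ = _ := by rw [pow_add]; ring
  -- from pairs to functions
  have hinj : Function.Injective (fun P : Fin 2 → ℤ => (P 0, P 1)) := by
    intro P Q hPQ
    simp only [Prod.mk.injEq] at hPQ
    funext i
    fin_cases i
    · exact hPQ.1
    · exact hPQ.2
  have hfb : ∀ T : Finset (Fin 2 → ℤ), (∀ P ∈ T, |eval P F| ≤ (H : ℤ)) →
      (T.card : ℝ) ≤ (B : ℝ) ^ (k + 2) * (S + b * (1 + Real.log H)) := by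
    intro T hT
    rw [← Finset.card_image_of_injective T hinj]
    refine hbound _ ?_
    intro Q hQ
    obtain ⟨P, hP, rfl⟩ := Finset.mem_image.1 hQ
    show |ev n (ar F) (P 0) (P 1)| ≤ (H : ℤ)
    rw [ev_ar hF]
    exact hT P hP
  have hfin : {P : Fin 2 → ℤ | |eval P F| ≤ (H : ℤ)}.Finite := by
    by_contra hinf
    obtain ⟨N, hN⟩ := exists_nat_gt ((B : ℝ) ^ (k + 2) * (S + b * (1 + Real.log H)))
    obtain ⟨T, hTs, hTc⟩ := Set.Infinite.exists_subset_card_eq hinf N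
    have h9 := hfb T (fun P hP => hTs hP)
    rw [hTc] at h9
    linarith
  refine ⟨hfin, ?_⟩
  rw [← hb, Set.ncard_eq_toFinset_card _ hfin]
  exact hfb _ (fun P hP => by simpa using (Set.Finite.mem_toFinset hfin).1 hP)

/-- the statement of `smy` with the exponents `K₀`, `k₂` -/
def SmK (n K₀ k₂ : ℕ) : Prop := ∀ B : ℕ, 2 ≤ B → ∀ e : ℕ → ℕ → ℤ, Ir n e →
    (∀ a b, a + b = n → |e a b| ≤ (B : ℤ)) → ∀ (S H : ℕ), 1 ≤ S → 1 ≤ H → H ^ 2 ≤ S ^ n →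
    (∀ a b, a + b < n → |e a b| ≤ ((S : ℤ) ^ (n - (a + b)))) → ∀ T : Finset (ℤ × ℤ),
    (∀ P ∈ T, |ev n e P.1 P.2| ≤ (H : ℤ) ∧ |P.2| ≤ |P.1| ∧ |P.1| ≤ (B : ℤ) ^ K₀ * S) →
    (T.card : ℝ) ≤ (B : ℝ) ^ k₂ * ((S : ℝ) ^ (1 - 1 / (36 * (n : ℝ) ^ 2)) + (H : ℝ) ^ (2 / (n : ℝ)) * (1 + Real.log H))

/-- all integer points with `|F| ≤ H`, `H² ≤ S^n` -/
theorem ptsye (n : ℕ) (hn : 4 ≤ n) (k₂ k : ℕ) (hsm : SmK n (41 * n ^ 2 + 2500 * n ^ 4) k₂)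
    (hk : 2500 * n ^ 4 + 51 * n ^ 2 + 2 ≤ k) (hk2 : k₂ + 2 ≤ k) : ∀ B : ℕ, 2 ≤ B → ∀ e : ℕ → ℕ → ℤ, Ir n e →
    (∀ a b, a + b = n → |e a b| ≤ (B : ℤ)) → ∀ S H : ℕ, 1 ≤ S → 1 ≤ H → H ^ 2 ≤ S ^ n →
    (∀ a b, a + b < n → |e a b| ≤ ((S : ℤ) ^ (n - (a + b)))) → ∀ T : Finset (ℤ × ℤ),
    (∀ P ∈ T, |ev n e P.1 P.2| ≤ (H : ℤ)) →
    (T.card : ℝ) ≤ (B : ℝ) ^ k * ((S : ℝ) ^ (1 - 1 / (36 * (n : ℝ) ^ 2)) + (H : ℝ) ^ (2 / (n : ℝ)) * (1 + Real.log H)) := by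
  classical
  have hmed := Pool.Agent.H99.VY.medye n hn (2500 * n ^ 4)
  obtain ⟨k₁, hk₁⟩ : ∃ k₁ : ℕ, k₁ = 41 * n ^ 2 + 2500 * n ^ 4 := ⟨_, rfl⟩
  rw [← hk₁] at hmed hsm
  have hkk : k₁ + 2 ≤ k := by omega
  have hk3 : 4 * n + 9 + 2 ≤ k := by
    have : 4 * n + 9 ≤ 51 * n ^ 2 := by nlinarith
    omega
  intro B hB e hir htop S H hS hH hHS hlow T hT
  obtain ⟨h, hh⟩ : ∃ h : ℕ, h = B * S ^ n := ⟨_, rfl⟩
  have hSn1 : 1 ≤ S ^ n := Nat.one_le_pow _ _ hS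
  have hh2 : 2 ≤ h := by
    rw [hh]
    nlinarith
  have hBh : B ≤ h := by
    rw [hh]
    nlinarith
  have hSh : S ^ n ≤ h := by
    rw [hh]
    nlinarith
  have hHh : H ≤ h := by
    have h1 : H ≤ H ^ 2 := Nat.le_self_pow (by norm_num) H
    exact (h1.trans hHS).trans hSh
  have hht : ∀ i j, i + j ≤ n → |e i j| ≤ (h : ℤ) := by
    intro i j hij
    rcases Nat.lt_or_ge (i + j) n with h1 | h1
    · refine (hlow i j h1).trans ?_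
      exact_mod_cast (Nat.pow_le_pow_right hS (by omega : n - (i + j) ≤ n)).trans hSh
    · refine (htop i j (le_antisymm hij h1)).trans ?_
      exact_mod_cast hBh
  have hn4 : (4 : ℝ) ≤ n := by exact_mod_cast hn
  have hn0 : (0 : ℝ) < n := by linarith
  have hB2 : (2 : ℝ) ≤ B := by exact_mod_cast hB
  have hB1 : (1 : ℝ) ≤ B := by linarith
  have hS1 : (1 : ℝ) ≤ S := by exact_mod_cast hS
  have hH1 : (1 : ℝ) ≤ H := by exact_mod_cast hH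
  have hlH := Real.log_nonneg hH1
  have hBk : (1 : ℝ) ≤ (B : ℝ) ^ k₁ := one_le_pow₀ hB1
  have hBk2 : (1 : ℝ) ≤ (B : ℝ) ^ k₂ := one_le_pow₀ hB1
  obtain ⟨Z, hZ⟩ : ∃ Z : ℝ, Z = (H : ℝ) ^ (2 / (n : ℝ)) * (1 + Real.log H) := ⟨_, rfl⟩
  have hZ0 : 0 ≤ Z := by rw [hZ]; positivity
  obtain ⟨s, hs⟩ : ∃ s : ℝ, s = (S : ℝ) ^ (1 - 1 / (36 * (n : ℝ) ^ 2)) := ⟨_, rfl⟩
  have hs0 : 0 ≤ s := by rw [hs]; positivity
  set T0 := T.filter fun P => (h : ℤ) ^ (2500 * n ^ 4) < max |P.1| |P.2| with hT0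
  set T3 := T.filter fun P => ¬ (h : ℤ) ^ (2500 * n ^ 4) < max |P.1| |P.2| with hT3
  set T1 := T3.filter fun P => (B : ℝ) ^ k₁ * S ≤ (max |P.1| |P.2| : ℤ) with hT1
  set T2 := T3.filter fun P => ¬ (B : ℝ) ^ k₁ * S ≤ (max |P.1| |P.2| : ℤ) with hT2
  set T4 := T2.filter fun P => |P.2| ≤ |P.1| with hT4
  set T5 := T2.filter fun P => ¬ |P.2| ≤ |P.1| with hT5
  have h0 : (T0.card : ℝ) ≤ (B : ℝ) ^ (4 * n + 9) * Z := by
    have h1 := farx hn hh2 hH hHh e hht hir T0 (by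
      intro P hP
      rw [hT0, Finset.mem_filter] at hP
      exact ⟨hP.2, hT P hP.1⟩)
    refine h1.trans ?_
    have h2 := c360 n B hB2
    have h4 : (H : ℝ) ^ (1 / (n : ℝ)) ≤ Z := by
      rw [hZ]
      have h5 : (H : ℝ) ^ (1 / (n : ℝ)) ≤ (H : ℝ) ^ (2 / (n : ℝ)) :=
        Real.rpow_le_rpow_of_exponent_le hH1 (div_le_div_of_nonneg_right (by norm_num) hn0.le)
      exact h5.trans (le_mul_of_one_le_right (by positivity) (by linarith))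
    push_cast at h2
    exact mul_le_mul h2 h4 (by positivity) (by positivity)
  have h1 : (T1.card : ℝ) ≤ (B : ℝ) ^ k₁ * s := by
    rw [hs]
    refine hmed B hB e hir htop S H hS hH hHS hlow T1 ?_
    intro P hP
    rw [hT1, Finset.mem_filter, hT3, Finset.mem_filter] at hP
    refine ⟨hT P hP.1.1, hP.2, ?_⟩
    have h2 := not_lt.1 hP.1.2
    rw [hh] at h2
    push_cast at h2
    exact h2
  have hbox : ∀ P ∈ T2, |ev n e P.1 P.2| ≤ (H : ℤ) ∧ |P.1| ≤ (B : ℤ) ^ k₁ * S ∧ |P.2| ≤ (B : ℤ) ^ k₁ * S := by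
    intro P hP
    rw [hT2, Finset.mem_filter, hT3, Finset.mem_filter] at hP
    have h3 := hP.2
    push Not at h3
    have h4 : ((max |P.1| |P.2| : ℤ) : ℝ) < (((B : ℤ) ^ k₁ * S : ℤ) : ℝ) := by
      push_cast
      push_cast at h3
      exact h3
    have h5 : max |P.1| |P.2| < (B : ℤ) ^ k₁ * S := by exact_mod_cast h4
    exact ⟨hT P hP.1.1, ((le_max_left _ _).trans h5.le), ((le_max_right _ _).trans h5.le)⟩
  have h4 : (T4.card : ℝ) ≤ (B : ℝ) ^ k₂ * (s + Z) := by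
    rw [hs, hZ]
    refine hsm B hB e hir htop S H hS hH hHS hlow T4 ?_
    intro P hP
    rw [hT4, Finset.mem_filter] at hP
    obtain ⟨q1, q2, q3⟩ := hbox P hP.1
    exact ⟨q1, hP.2, q2⟩
  have h5 : (T5.card : ℝ) ≤ (B : ℝ) ^ k₂ * (s + Z) := by
    rw [hs, hZ, ← Finset.card_image_of_injective T5 Prod.swap_injective]
    refine hsm B hB (sw e) (ir_sw n (by omega) e hir) (fun a b hab => htop b a (by omega)) S H hS hH hHS
      (fun a b hab => by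
        have := hlow b a (by omega)
        rwa [add_comm b a] at this) (T5.image Prod.swap) ?_
    intro Q hQ
    obtain ⟨P, hP, rfl⟩ := Finset.mem_image.1 hQ
    rw [hT5, Finset.mem_filter] at hP
    obtain ⟨q1, q2, q3⟩ := hbox P hP.1
    refine ⟨?_, ?_, q3⟩
    · show |ev n (sw e) P.2 P.1| ≤ (H : ℤ)
      rw [ev_sw]
      exact q1
    · show |P.1| ≤ |P.2|
      exact (not_le.1 hP.2).le
  have h3 : T.card = T0.card + (T1.card + (T4.card + T5.card)) := by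
    rw [hT4, hT5, Finset.card_filter_add_card_filter_not, hT1, hT2, Finset.card_filter_add_card_filter_not, hT0, hT3,
      Finset.card_filter_add_card_filter_not]
  rw [h3, ← hZ, ← hs]
  push_cast
  obtain ⟨b, hb⟩ : ∃ b : ℝ, b = (B : ℝ) ^ (k - 2) := ⟨_, rfl⟩
  have hb0 : 0 ≤ b := by rw [hb]; positivity
  have hkb : (B : ℝ) ^ k = b * (B : ℝ) ^ 2 := by
    rw [hb, ← pow_add]
    congr 1
    omega
  have q1 : (B : ℝ) ^ k₁ ≤ b := by rw [hb]; exact pow_le_pow_right₀ hB1 (by omega)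
  have q2 : (B : ℝ) ^ k₂ ≤ b := by rw [hb]; exact pow_le_pow_right₀ hB1 (by omega)
  have q3 : (B : ℝ) ^ (4 * n + 9) ≤ b := by rw [hb]; exact pow_le_pow_right₀ hB1 (by omega)
  have e0 : (T0.card : ℝ) ≤ b * Z := h0.trans (mul_le_mul_of_nonneg_right q3 hZ0)
  have e1 : (T1.card : ℝ) ≤ b * s := h1.trans (mul_le_mul_of_nonneg_right q1 hs0)
  have hsZ : 0 ≤ s + Z := by linarith
  have e4 : (T4.card : ℝ) ≤ b * (s + Z) := h4.trans (mul_le_mul_of_nonneg_right q2 hsZ)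
  have e5 : (T5.card : ℝ) ≤ b * (s + Z) := h5.trans (mul_le_mul_of_nonneg_right q2 hsZ)
  rw [hkb]
  have h8 : (4 : ℝ) ≤ (B : ℝ) ^ 2 := by nlinarith
  have h9 : b * 4 ≤ b * (B : ℝ) ^ 2 := mul_le_mul_of_nonneg_left h8 hb0
  have h10 : b * 4 * (s + Z) ≤ b * (B : ℝ) ^ 2 * (s + Z) := mul_le_mul_of_nonneg_right h9 hsZ
  have h11 : 0 ≤ b * s := mul_nonneg hb0 hs0
  have h12 : 0 ≤ b * Z := mul_nonneg hb0 hZ0
  linarith

/-- THEOREM VY, explicit -/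
theorem mainye (n : ℕ) (hn : 4 ≤ n) (k₂ l : ℕ) (hsm : SmK n (41 * n ^ 2 + 2500 * n ^ 4) k₂)
    (hl : 2500 * n ^ 4 + 51 * n ^ 2 + 5 ≤ l) (hl2 : k₂ + 2 ≤ l) : ∀ B S H : ℕ, 2 ≤ B → 1 ≤ S → 1 ≤ H →
    ∀ F : MvPolynomial (Fin 2) ℤ, F.totalDegree ≤ n →
    Irreducible (map (Int.castRingHom ℚ) (homogeneousComponent n F)) →
    (∀ m : Fin 2 →₀ ℕ, m.degree = n → |F.coeff m| ≤ (B : ℤ)) →
    (∀ m : Fin 2 →₀ ℕ, m.degree < n → |F.coeff m| ≤ (S : ℤ) ^ (n - m.degree)) →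
    {P : Fin 2 → ℤ | |eval P F| ≤ (H : ℤ)}.Finite ∧
    (({P : Fin 2 → ℤ | |eval P F| ≤ (H : ℤ)}.ncard : ℕ) : ℝ) ≤
      (B : ℝ) ^ l * ((S : ℝ) ^ (1 - 1 / (36 * (n : ℝ) ^ 2)) + (H : ℝ) ^ (2 / (n : ℝ)) * (1 + Real.log H)) := by
  classical
  have hk := ptsye n hn k₂ l hsm (by omega) hl2
  obtain ⟨k', hk1⟩ : ∃ k', l = k' + 1 := ⟨l - 1, by omega⟩
  have hk' := mainxe n hn k' (by omega)
  intro B S H hB hS hH F hF hirr hFB hFb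
  obtain ⟨hfin, hx⟩ := hk' B S H hB hS hH F hF hirr hFB hFb
  refine ⟨hfin, ?_⟩
  have hn4 : (4 : ℝ) ≤ n := by exact_mod_cast hn
  have hn0 : (0 : ℝ) < n := by linarith
  have hB2 : (2 : ℝ) ≤ B := by exact_mod_cast hB
  have hB1 : (1 : ℝ) ≤ B := by linarith
  have hH1 : (1 : ℝ) ≤ H := by exact_mod_cast hH
  have hlH := Real.log_nonneg hH1
  have hS0 : (0 : ℝ) ≤ S := Nat.cast_nonneg S
  obtain ⟨Z, hZ⟩ : ∃ Z : ℝ, Z = (H : ℝ) ^ (2 / (n : ℝ)) * (1 + Real.log H) := ⟨_, rfl⟩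
  have hZ0 : 0 ≤ Z := by rw [hZ]; positivity
  obtain ⟨s, hs⟩ : ∃ s : ℝ, s = (S : ℝ) ^ (1 - 1 / (36 * (n : ℝ) ^ 2)) := ⟨_, rfl⟩
  have hs0 : 0 ≤ s := by rw [hs]; positivity
  by_cases hHS : H ^ 2 ≤ S ^ n
  · have hir := ir_ar (by omega) hirr
    have htop : ∀ a b, a + b = n → |ar F a b| ≤ (B : ℤ) := fun a b hab => hFB _ (by rw [deg_ab]; exact hab)
    have hlow : ∀ a b, a + b < n → |ar F a b| ≤ ((S : ℤ) ^ (n - (a + b))) := by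
      intro a b hab
      have h2 := hFb (Finsupp.single 0 a + Finsupp.single 1 b) (by rw [deg_ab]; exact hab)
      rwa [deg_ab] at h2
    have hinj : Function.Injective (fun P : Fin 2 → ℤ => (P 0, P 1)) := by
      intro P Q hPQ
      simp only [Prod.mk.injEq] at hPQ
      funext i
      fin_cases i
      · exact hPQ.1
      · exact hPQ.2
    rw [Set.ncard_eq_toFinset_card _ hfin, ← Finset.card_image_of_injective _ hinj]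
    have h1 := hk B hB (ar F) hir htop S H hS hH hHS hlow (hfin.toFinset.image fun P : Fin 2 → ℤ => (P 0, P 1)) (by
      intro Q hQ
      obtain ⟨P, hP, rfl⟩ := Finset.mem_image.1 hQ
      show |ev n (ar F) (P 0) (P 1)| ≤ (H : ℤ)
      rw [ev_ar hF]
      exact (Set.Finite.mem_toFinset hfin).1 hP)
    rw [← hZ, ← hs] at h1 ⊢
    exact h1
  · rw [← hZ] at hx
    rw [← hZ, ← hs]
    have h2 : (S : ℝ) ≤ Z := by
      have h3 : S ^ n ≤ H ^ 2 := by omega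
      have h4 : (S : ℝ) ^ n ≤ (H : ℝ) ^ 2 := by exact_mod_cast h3
      have h5 : (S : ℝ) ≤ (H : ℝ) ^ (2 / (n : ℝ)) := by
        have h6 : (S : ℝ) = ((S : ℝ) ^ n) ^ (1 / (n : ℝ)) := by
          rw [← Real.rpow_natCast, ← Real.rpow_mul hS0, mul_one_div_cancel hn0.ne', Real.rpow_one]
        rw [h6]
        refine (Real.rpow_le_rpow (by positivity) h4 (by positivity)).trans (le_of_eq ?_)
        rw [← Real.rpow_natCast, ← Real.rpow_mul (by linarith)]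
        congr 1
        push_cast
        ring
      rw [hZ]
      exact h5.trans (le_mul_of_one_le_right (by positivity) (by linarith))
    have h7 : (S : ℝ) + Z ≤ 2 * (s + Z) := by linarith
    have h8 : (B : ℝ) ^ k' * 2 ≤ (B : ℝ) ^ l := by
      have h9 : (B : ℝ) ^ k' * 2 ≤ (B : ℝ) ^ k' * B := mul_le_mul_of_nonneg_left hB2 (by positivity)
      have h10 : (B : ℝ) ^ k' * B = (B : ℝ) ^ (k' + 1) := (pow_succ _ _).symm
      rw [h10] at h9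
      exact h9.trans (pow_le_pow_right₀ hB1 (by omega))
    calc _ ≤ (B : ℝ) ^ k' * (S + Z) := hx
      _ ≤ (B : ℝ) ^ k' * (2 * (s + Z)) := mul_le_mul_of_nonneg_left h7 (by positivity)
      _ = (B : ℝ) ^ k' * 2 * (s + Z) := by ring
      _ ≤ _ := mul_le_mul_of_nonneg_right h8 (by linarith)

/-- THEOREM VY, full statement -/
theorem fink (n : ℕ) (hn : 4 ≤ n) (k₂ K : ℕ) (hsm : SmK n (41 * n ^ 2 + 2500 * n ^ 4) k₂)
    (hl : 2500 * n ^ 4 + 51 * n ^ 2 + 5 ≤ K) (hl2 : k₂ + 2 ≤ K) : ∀ B S H : ℕ, 2 ≤ B → 1 ≤ S → 1 ≤ H →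
    ∀ F : MvPolynomial (Fin 2) ℤ, F.totalDegree ≤ n →
    Irreducible (map (Int.castRingHom ℚ) (homogeneousComponent n F)) →
    (∀ m : Fin 2 →₀ ℕ, m.degree = n → |F.coeff m| ≤ (B : ℤ)) →
    (∀ m : Fin 2 →₀ ℕ, m.degree < n → |F.coeff m| ≤ (S : ℤ) ^ (n - m.degree)) →
    {P : Fin 2 → ℤ | |eval P F| ≤ (H : ℤ)}.Finite ∧
    (({P : Fin 2 → ℤ | |eval P F| ≤ (H : ℤ)}.ncard : ℕ) : ℝ) ≤
      (B : ℝ) ^ K * ((S : ℝ) ^ (1 - 1 / (36 * (n : ℝ) ^ 2)) + (H : ℝ) ^ (2 / (n : ℝ)) * (1 + Real.log H)) ∧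
    (({c : ℤ | |c| ≤ (H : ℤ) ∧ ∃ P : Fin 2 → ℤ, eval P (F + C c) = 0}.ncard : ℕ) : ℝ) ≤
      (B : ℝ) ^ K * ((S : ℝ) ^ (1 - 1 / (36 * (n : ℝ) ^ 2)) + (H : ℝ) ^ (2 / (n : ℝ)) * (1 + Real.log H)) ∧
    ∀ M : ℝ, (M = 360 * n ^ 4 * (H : ℝ) ^ (1 / (n : ℝ)) ∨ M = 80 * n ^ 3 ∧ ∀ t b : ℝ,
      n - 2 ≤ (aeval ![Polynomial.X, Polynomial.C t * Polynomial.X + Polynomial.C b] F : Polynomial ℝ).natDegree) →
    (({P : Fin 2 → ℤ | |eval P F| ≤ (H : ℤ) ∧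
      ((B : ℤ) * S ^ n * H) ^ (700 * n ^ 5) < max |P 0| |P 1|}.ncard : ℕ) : ℝ) ≤ M ∧
    (({c : ℤ | |c| ≤ (H : ℤ) ∧ ∃ P : Fin 2 → ℤ, eval P (F + C c) = 0 ∧
      ((B : ℤ) * S ^ n * H) ^ (700 * n ^ 5) < max |P 0| |P 1|}.ncard : ℕ) : ℝ) ≤ M := by
  have hK := mainye n hn k₂ K hsm hl hl2
  intro B S H hB hS hH F hF hirr hFB hFb
  obtain ⟨h1, h2⟩ := hK B S H hB hS hH F hF hirr hFB hFb
  refine ⟨h1, h2, ?_, ?_⟩
  · have h4 := curves F H (fun _ => True) h1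
    simp only [and_true] at h4
    exact le_trans (by exact_mod_cast h4) h2
  · intro M hM
    have h3 : (({P : Fin 2 → ℤ | |eval P F| ≤ (H : ℤ) ∧
      ((B : ℤ) * S ^ n * H) ^ (700 * n ^ 5) < max |P 0| |P 1|}.ncard : ℕ) : ℝ) ≤ M := by
      rcases hM with rfl | ⟨rfl, hflex⟩
      · exact farF n hn B S H hB hS hH F hF hirr hFB hFb h1
      · exact farG n hn B S H hB hS hH F hF hirr hflex hFB hFb h1
    have h4 := curves F H (fun P => ((B : ℤ) * S ^ n * H) ^ (700 * n ^ 5) < max |P 0| |P 1|) h1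
    exact ⟨h3, le_trans (by exact_mod_cast h4) h3⟩

/-- THEOREM VY with the exponent `3000 n^4` -/
theorem fine (n : ℕ) (hn : 4 ≤ n) : ∀ B S H : ℕ, 2 ≤ B → 1 ≤ S → 1 ≤ H →
    ∀ F : MvPolynomial (Fin 2) ℤ, F.totalDegree ≤ n →
    Irreducible (map (Int.castRingHom ℚ) (homogeneousComponent n F)) →
    (∀ m : Fin 2 →₀ ℕ, m.degree = n → |F.coeff m| ≤ (B : ℤ)) →
    (∀ m : Fin 2 →₀ ℕ, m.degree < n → |F.coeff m| ≤ (S : ℤ) ^ (n - m.degree)) →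
    {P : Fin 2 → ℤ | |eval P F| ≤ (H : ℤ)}.Finite ∧
    (({P : Fin 2 → ℤ | |eval P F| ≤ (H : ℤ)}.ncard : ℕ) : ℝ) ≤
      (B : ℝ) ^ (3000 * n ^ 4) * ((S : ℝ) ^ (1 - 1 / (36 * (n : ℝ) ^ 2)) + (H : ℝ) ^ (2 / (n : ℝ)) * (1 + Real.log H)) ∧
    (({c : ℤ | |c| ≤ (H : ℤ) ∧ ∃ P : Fin 2 → ℤ, eval P (F + C c) = 0}.ncard : ℕ) : ℝ) ≤
      (B : ℝ) ^ (3000 * n ^ 4) * ((S : ℝ) ^ (1 - 1 / (36 * (n : ℝ) ^ 2)) + (H : ℝ) ^ (2 / (n : ℝ)) * (1 + Real.log H)) ∧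
    ∀ M : ℝ, (M = 360 * n ^ 4 * (H : ℝ) ^ (1 / (n : ℝ)) ∨ M = 80 * n ^ 3 ∧ ∀ t b : ℝ,
      n - 2 ≤ (aeval ![Polynomial.X, Polynomial.C t * Polynomial.X + Polynomial.C b] F : Polynomial ℝ).natDegree) →
    (({P : Fin 2 → ℤ | |eval P F| ≤ (H : ℤ) ∧
      ((B : ℤ) * S ^ n * H) ^ (700 * n ^ 5) < max |P 0| |P 1|}.ncard : ℕ) : ℝ) ≤ M ∧
    (({c : ℤ | |c| ≤ (H : ℤ) ∧ ∃ P : Fin 2 → ℤ, eval P (F + C c) = 0 ∧
      ((B : ℤ) * S ^ n * H) ^ (700 * n ^ 5) < max |P 0| |P 1|}.ncard : ℕ) : ℝ) ≤ M := by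
  have h16 : 16 * n ^ 2 ≤ n ^ 4 := by
    have h1 : 4 * 4 ≤ n * n := Nat.mul_le_mul hn hn
    nlinarith [Nat.mul_le_mul_right (n * n) h1]
  have h1 : 16 ≤ n ^ 2 := by nlinarith
  exact fink n hn (900 * n ^ 2 + (41 * n ^ 2 + 2500 * n ^ 4)) (3000 * n ^ 4) (Pool.Agent.H99.VY.smye n hn _) (by omega) (by omega)

end Pool.Agent.H8.VY
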